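import Mathlib
import Pool.Agent.CpCube.Support

set_option autoImplicit false

namespace Pool.Agent.Results.MP_d6b4bb_gt.NonmetrizableCompacta

open TopologicalSpace Pool.Agent.CpCube

/-- `C_p(X)`: the continuous real functions on `X`, with the topology of pointwise convergence
(the subspace topology of the product of copies of the real line). -/
abbrev Cp (X : Type) [TopologicalSpace X] : Type := {g : X → ℝ // Continuous g}

/-- The subspace of `C_p(X)` of all continuous functions with values in `{0, 1}`. -/
abbrev Cp01 (X : Type) [TopologicalSpace X] : Type := {g : Cp X // ∀ x, g.1 x = 0 ∨ g.1 x = 1}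

/-- the indicator function of a clopen set, as a point of `Cp01 X` -/
noncomputable def ind {X : Type} [TopologicalSpace X] (C : Clopens X) : Cp01 X :=
  ⟨⟨Set.indicator (C : Set X) (fun _ => 1), by
    exact (IsClopen.continuous_indicator C.isClopen continuous_const)⟩, by
    intro x
    show Set.indicator (C : Set X) (fun _ => (1 : ℝ)) x = 0 ∨
      Set.indicator (C : Set X) (fun _ => (1 : ℝ)) x = 1
    by_cases hx : x ∈ (C : Set X)
    · exact Or.inr (Set.indicator_of_mem hx _)
    · exact Or.inl (Set.indicator_of_notMem hx _)⟩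

lemma ind_half {X : Type} [TopologicalSpace X] (C : Clopens X) (x : X) :
    (1 / 2 < (ind C).1.1 x) ↔ x ∈ C := by
  show 1 / 2 < Set.indicator (C : Set X) (fun _ => (1 : ℝ)) x ↔ x ∈ C
  by_cases hx : x ∈ C
  · rw [Set.indicator_of_mem (show x ∈ (C : Set X) from hx)]
    exact ⟨fun _ => hx, fun _ => by norm_num⟩
  · rw [Set.indicator_of_notMem (show x ∉ (C : Set X) from hx)]
    exact ⟨fun h => absurd h (by norm_num), fun h => absurd h hx⟩

lemma ind_eq_of_iff {X : Type} [TopologicalSpace X] (C C' : Clopens X) (x : X)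
    (h : x ∈ C' ↔ x ∈ C) : (ind C').1.1 x = (ind C).1.1 x := by
  show Set.indicator (C' : Set X) (fun _ => (1 : ℝ)) x = Set.indicator (C : Set X) (fun _ => 1) x
  by_cases hx : x ∈ C
  · have hx' : x ∈ C' := h.2 hx
    rw [Set.indicator_of_mem (show x ∈ (C' : Set X) from hx'),
      Set.indicator_of_mem (show x ∈ (C : Set X) from hx)]
  · have hx' : x ∉ C' := fun h' => hx (h.1 h')
    rw [Set.indicator_of_notMem (show x ∉ (C' : Set X) from hx'),
      Set.indicator_of_notMem (show x ∉ (C : Set X) from hx)]

/-- continuity gives hitting tuples -/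
lemma exists_hit {X Y : Type} [TopologicalSpace X] [TopologicalSpace Y]
    (f : Cp01 X → Cp Y) (hf : Continuous f)
    (C : Clopens X) (ε : ℝ) (hε : 0 < ε) (y : Y) :
    ∃ n, ∃ E : Fin n → X, Hit (fun C y => (f (ind C)).1 y) C ε y E := by
  have hc : Continuous fun g : Cp01 X => (f g).1 y :=
    (continuous_apply y).comp (continuous_subtype_val.comp hf)
  have ho : IsOpen {g : Cp01 X | |(f g).1 y - (f (ind C)).1 y| < ε} :=
    isOpen_lt ((hc.sub continuous_const).abs) continuous_const
  obtain ⟨O', hO', hOeq'⟩ := isOpen_induced_iff.1 ho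
  obtain ⟨O, hO, hOeq⟩ := isOpen_induced_iff.1 hO'
  have hmem : (ind C).1.1 ∈ O := by
    have h1 : ind C ∈ Subtype.val ⁻¹' O' := by
      rw [hOeq']
      simpa using hε
    have h2 : (ind C).1 ∈ Subtype.val ⁻¹' O := by
      rw [hOeq]
      exact h1
    exact h2
  obtain ⟨I, u, hu, hsub⟩ := isOpen_pi_iff.1 hO _ hmem
  refine ⟨I.card, fun i => (I.equivFin.symm i).1, fun C' hC' => ?_⟩
  have h1 : (ind C').1.1 ∈ O := by
    apply hsub
    intro x hx
    have h2 := hC' (I.equivFin ⟨x, hx⟩)
    simp only [Equiv.symm_apply_apply] at h2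
    rw [ind_eq_of_iff C C' x h2]
    exact (hu x hx).2
  have h2 : (ind C').1 ∈ Subtype.val ⁻¹' O := h1
  rw [hOeq] at h2
  have h3 : ind C' ∈ Subtype.val ⁻¹' O' := h2
  rw [hOeq'] at h3
  exact le_of_lt h3

/-- general form: an embedding of the `{0, 1}`-valued functions makes `X` second countable -/
theorem secondCountable_of_embedding (X κ : Type) [TopologicalSpace X] [CompactSpace X] [T2Space X]
    [TotallyDisconnectedSpace X] (f : Cp01 X → Cp (κ → unitInterval))
    (hf : Topology.IsEmbedding f) : SecondCountableTopology X := by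
  classical
  obtain ⟨A, hA, hdep⟩ := exists_countable_support
    (fun (C : Clopens X) (y : κ → unitInterval) => (f (ind C)).1 y)
    (fun C => (f (ind C)).2) (fun C ε hε y => exists_hit f hf.continuous C ε hε y)
  have : Countable A := hA
  let Θ : C(A → unitInterval, ℝ) → Cp (κ → unitInterval) := fun h =>
    ⟨fun y => h (fun a => y a.1), h.continuous.comp
      (continuous_pi fun a => continuous_apply a.1)⟩
  have hΘ : Continuous Θ := by
    apply Continuous.subtype_mk
    apply continuous_pi
    intro y
    exact ContinuousEvalConst.continuous_eval_const (fun a : A => y a.1)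
  let ext : (A → unitInterval) → (κ → unitInterval) := fun z i =>
    if h : i ∈ A then z ⟨i, h⟩ else 0
  have hext : Continuous ext := by
    apply continuous_pi
    intro i
    by_cases h : i ∈ A
    · simp only [ext, h, dif_pos]
      exact continuous_apply _
    · simp only [ext, h, dif_neg, not_false_eq_true]
      exact continuous_const
  let hh : Clopens X → C(A → unitInterval, ℝ) := fun C =>
    ⟨fun z => (f (ind C)).1 (ext z), (f (ind C)).2.comp hext⟩
  have hhΘ : ∀ C, Θ (hh C) = f (ind C) := by
    intro C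
    apply Subtype.ext
    funext y
    apply hdep C
    intro i hi
    simp [ext, hi]
  -- the countable network
  let 𝓑 := countableBasis C(A → unitInterval, ℝ)
  let F : Set C(A → unitInterval, ℝ) → Set X := fun B =>
    ⋂ C ∈ {C : Clopens X | hh C ∈ B}, (C : Set X)
  have hFc : ∀ B, IsClosed (F B) := fun B => isClosed_biInter fun C _ => C.isClopen.isClosed
  have hnet : ∀ (x : X) (C : Clopens X), x ∈ C → ∃ B ∈ 𝓑, x ∈ F B ∧ F B ⊆ (C : Set X) := by
    intro x C hx
    have ho : IsOpen {g : Cp01 X | 1 / 2 < g.1.1 x} :=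
      isOpen_lt continuous_const ((continuous_apply x).comp
        (continuous_subtype_val.comp continuous_subtype_val))
    obtain ⟨W, hW, hWeq⟩ := hf.isInducing.isOpen_iff.1 ho
    have hWm : ∀ C' : Clopens X, f (ind C') ∈ W ↔ x ∈ C' := by
      intro C'
      rw [← ind_half C' x]
      have : ind C' ∈ f ⁻¹' W ↔ ind C' ∈ {g : Cp01 X | 1 / 2 < g.1.1 x} := by rw [hWeq]
      exact this
    obtain ⟨B, hB, h1, h2⟩ := (isBasis_countableBasis _).exists_subset_of_mem_open
      (show hh C ∈ Θ ⁻¹' W by
        show Θ (hh C) ∈ W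
        rw [hhΘ, hWm]
        exact hx) (hW.preimage hΘ)
    refine ⟨B, hB, ?_, ?_⟩
    · refine Set.mem_iInter₂.2 fun C' hC' => ?_
      have h3 : Θ (hh C') ∈ W := h2 hC'
      rw [hhΘ, hWm] at h3
      exact h3
    · intro z hz
      exact Set.mem_iInter₂.1 hz C h1
  -- countably many separating clopen sets
  have hsep : ∀ p : 𝓑 × 𝓑, ∃ D : Clopens X, Disjoint (F p.1.1) (F p.2.1) →
      F p.1.1 ⊆ (D : Set X) ∧ ∀ z ∈ F p.2.1, z ∉ D := by
    intro p
    by_cases hd : Disjoint (F p.1.1) (F p.2.1)
    · obtain ⟨D, hD, h3, h4⟩ := exists_clopen_of_closed_subset_open (hFc p.1.1)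
        (hFc p.2.1).isOpen_compl (fun x hx hx' => (Set.disjoint_left.1 hd) hx hx')
      exact ⟨⟨D, hD⟩, fun _ => ⟨h3, fun z hz hzD => h4 hzD hz⟩⟩
    · exact ⟨⊤, fun h => absurd h hd⟩
  choose D hD using hsep
  let Φ : X → (𝓑 × 𝓑 → Bool) := fun x p => (D p : Set X).boolIndicator x
  have hΦ : Continuous Φ := continuous_pi fun p =>
    (continuous_boolIndicator_iff_isClopen _).2 (D p).isClopen
  have hinj : Function.Injective Φ := by
    intro x y hxy
    by_contra hne
    obtain ⟨C, hC, hxC, hyC⟩ : ∃ C : Clopens X, True ∧ x ∈ C ∧ y ∉ C := by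
      obtain ⟨C, hC⟩ := exists_clopen_prescribed ({x, y} : Set X) (by simp) {x}
      refine ⟨C, trivial, (hC x (by simp)).2 rfl, fun h => hne ?_⟩
      exact ((hC y (by simp)).1 h).symm
    obtain ⟨B, hB, h1, h2⟩ := hnet x C hxC
    have hyC' : y ∈ Cᶜ := by
      show y ∈ ((Cᶜ : Clopens X) : Set X)
      rw [Clopens.coe_compl]
      exact hyC
    obtain ⟨B', hB', h1', h2'⟩ := hnet y Cᶜ hyC'
    have hdis : Disjoint (F B) (F B') := by
      rw [Set.disjoint_left]
      intro z hz hz'
      have h3 := h2' hz'
      rw [Clopens.coe_compl] at h3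
      exact h3 (h2 hz)
    obtain ⟨h5, h6⟩ := hD (⟨B, hB⟩, ⟨B', hB'⟩) hdis
    have h7 : x ∈ D (⟨B, hB⟩, ⟨B', hB'⟩) := h5 h1
    have h8 : y ∉ D (⟨B, hB⟩, ⟨B', hB'⟩) := h6 y h1'
    have h9 : (D (⟨B, hB⟩, ⟨B', hB'⟩) : Set X).boolIndicator x =
      (D (⟨B, hB⟩, ⟨B', hB'⟩) : Set X).boolIndicator y := congrFun hxy (⟨B, hB⟩, ⟨B', hB'⟩)
    rw [(Set.mem_iff_boolIndicator _ x).1 h7, (Set.notMem_iff_boolIndicator _ y).1 h8] at h9
    exact absurd h9 (by decide)
  have : Countable 𝓑 := (countable_countableBasis _)
  exact (hΦ.isClosedEmbedding hinj).isInducing.secondCountableTopology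

/-- the Cantor cube with uncountably many factors is not second countable -/
theorem countable_of_secondCountable (ι : Type) (h : SecondCountableTopology (ι → Bool)) :
    Countable ι := by
  classical
  let e : ι → (ι → Bool) := fun a i => decide (i = a)
  have ho : ∀ a : ι, IsOpen {x : ι → Bool | x a = true} := fun a =>
    ((isClopen_discrete ({true} : Set Bool)).preimage
      (continuous_apply a : Continuous fun x : ι → Bool => x a)).isOpen
  have hB : ∀ a, ∃ B ∈ countableBasis (ι → Bool), e a ∈ B ∧ B ⊆ {x : ι → Bool | x a = true} := by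
    intro a
    exact (isBasis_countableBasis _).exists_subset_of_mem_open (by simp [e]) (ho a)
  choose B hB1 hB2 hB3 using hB
  have hinj : Function.Injective (fun a => (⟨B a, hB1 a⟩ : countableBasis (ι → Bool))) := by
    intro a b hab
    have h1 : B a = B b := congrArg Subtype.val hab
    have h2 : e a ∈ B b := h1 ▸ hB2 a
    have h3 : e a b = true := hB3 b h2
    have h4 : b = a := by simpa [e] using h3
    exact h4.symm
  exact hinj.countable

/-- **Answer to Q1: no**, in a strong form.  (1) For every uncountable set `ι` and every set `κ`,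
`C_p` of the Cantor cube over `ι` does not embed in `C_p` of the Tychonoff cube over `κ`.  (2) More
generally, if `X` is a compact Hausdorff totally disconnected space and already the subspace of the
`{0, 1}`-valued functions of `C_p(X)` embeds in `C_p` of some Tychonoff cube, then `X` is
metrizable. -/
theorem result :
    (∀ (ι κ : Type) (_ : Uncountable ι) (f : Cp (ι → Bool) → Cp (κ → unitInterval)),
      ¬ Topology.IsEmbedding f) ∧
    (∀ (X κ : Type) [TopologicalSpace X] [CompactSpace X] [T2Space X] [TotallyDisconnectedSpace X]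
      (f : Cp01 X → Cp (κ → unitInterval)), Topology.IsEmbedding f → MetrizableSpace X) := by
  refine ⟨fun ι κ hι f hf => ?_, fun X κ _ _ _ _ f hf => ?_⟩
  · have h1 := secondCountable_of_embedding (ι → Bool) κ (fun g => f g.1)
      (hf.comp Topology.IsEmbedding.subtypeVal)
    have h2 := countable_of_secondCountable ι h1
    exact not_countable h2
  · have h1 := secondCountable_of_embedding X κ f hf
    infer_instance

end Pool.Agent.Results.MP_d6b4bb_gt.NonmetrizableCompacta
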